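import Pool.Agent.N299.PX.Stm

/-!
Project PX: every C*-algebra is an ideal of a unital one, and local `𝒵`-stability passes to the ideal.
-/

set_option autoImplicit false

open scoped Topology

noncomputable section

namespace Pool.Agent.N299.PX

open Pool.Agent.N299 Pool.Agent.N299.DT Pool.Agent.N299.ND Pool.Agent.N299.ND.Pub

/-- the ideal -/
def idl (A : Type) [NonUnitalCStarAlgebra A] : Submodule ℂ (Unitization ℂ A) where
  carrier := {x | x.fst = 0}
  add_mem' := by
    intro x y hx hy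
    have hx : x.fst = 0 := hx
    have hy : y.fst = 0 := hy
    show (x + y).fst = 0
    rw [Unitization.fst_add, hx, hy, add_zero]
  zero_mem' := rfl
  smul_mem' := by
    intro c x hx
    have hx : x.fst = 0 := hx
    show (c • x).fst = 0
    rw [Unitization.fst_smul, hx, smul_zero]

theorem mem_idl {A : Type} [NonUnitalCStarAlgebra A] (x : Unitization ℂ A) :
    x ∈ idl A ↔ x.fst = 0 := Iff.rfl

theorem inc_any (A : Type) [NonUnitalCStarAlgebra A] :
    Inc (Unitization.inrNonUnitalStarAlgHom ℂ A) (idl A) := by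
  refine ⟨?_, ⟨?_, ?_, ?_, ?_⟩, ?_⟩
  · intro x y hxy
    exact Unitization.inr_injective hxy
  · exact isClosed_singleton.preimage (Unitization.continuous_fst (𝕜 := ℂ) (A := A))
  · intro x hx y
    rw [mem_idl] at hx ⊢
    rw [Unitization.fst_mul, hx, mul_zero]
  · intro x hx y
    rw [mem_idl] at hx ⊢
    rw [Unitization.fst_mul, hx, zero_mul]
  · intro x hx
    rw [mem_idl] at hx ⊢
    rw [Unitization.fst_star, hx, star_zero]
  · intro x
    rw [mem_idl]
    constructor
    · intro hx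
      refine ⟨x.snd, ?_⟩
      rw [Unitization.inrNonUnitalStarAlgHom_apply]
      ext
      · rw [Unitization.fst_inr, hx]
      · rw [Unitization.snd_inr]
    · rintro ⟨a, rfl⟩
      rw [Unitization.inrNonUnitalStarAlgHom_apply, Unitization.fst_inr]

theorem locz_of {A B : Type} [NonUnitalCStarAlgebra A] [CStarAlgebra B] {ι : A →⋆ₙₐ[ℂ] B}
    {I : Submodule ℂ B} (h : Inc ι I) (hA : LocalZStable A) : LocZ I := by
  classical
  intro N F ε hF hε
  have hn : ∀ x : A, ‖ι x‖ = ‖x‖ := fun x => NonUnitalStarAlgHom.norm_map ι h.inj x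
  choose f hf using fun a : F => (h.mem a.1).1 (hF a.1 a.2)
  obtain ⟨c, s, hcn, hsn, ⟨d, hd⟩, H⟩ := hA N (Finset.univ.image f) ε hε
  refine ⟨fun i => ι (c i), ι s, fun i => (h.mem _).2 ⟨_, rfl⟩, (h.mem _).2 ⟨_, rfl⟩,
    fun i => ?_, ?_, ⟨ι d, (h.mem _).2 ⟨_, rfl⟩, ?_⟩, fun a ha => ?_⟩
  · rw [hn]; exact hcn i
  · rw [hn]; exact hsn
  · show ι (c 0) = _
    rw [hd, map_mul, map_star]
  · have H' := H (f ⟨a, ha⟩) (Finset.mem_image_of_mem f (Finset.mem_univ _))
    have ha' : a = ι (f ⟨a, ha⟩) := (hf ⟨a, ha⟩).symm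
    rw [ha']
    simp only [← map_mul, ← map_sub, ← map_star, ← map_add, ← map_sum, hn]
    exact H'

end Pool.Agent.N299.PX
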