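import Pool.Agent.N299.PX.Stm
import Pool.Agent.N299.PX.Brz

/-!
Project PX: assembly.
-/

set_option autoImplicit false

open Filter

noncomputable section

namespace Pool.Agent.N299.PX

open Pool.Agent.N299 Pool.Agent.N299.DT Pool.Agent.N299.ND Pool.Agent.N299.ND.Pub
open Pool.Agent.N299.PX.Pub

/-- weakly purely infinite, locally `𝒵`-stable -/
theorem px_locz (hTT : S_TT) (hRR : S_RR) (hPM : S_PM) (hCMP : S_CMP) (hSP : S_SP) (hRW : S_RW)
    (hBPI : S_BPI) (hBSP : S_BSP) (hNC : S_NC) (A B : Type) [NonUnitalCStarAlgebra A]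
    [CStarAlgebra B] (ι : A →⋆ₙₐ[ℂ] B) (I : Submodule ℂ B) (hι : Inc ι I) (hI : LocZ I)
    (h : WPI A) : PI A ∧ SPI A := by
  obtain ⟨n, hn, hr⟩ := hRW A B ι I hι h
  have hT : TT I := hTT B I hι.idl hI
  have h2 : ∀ K, Rows I 1 K := hPM B I hι.idl hT n hn (hRR B I hι.idl n hn hr)
  exact ⟨⟨hNC A h, hBPI A B ι I hι (hCMP B I hι.idl h2)⟩,
    hBSP A B ι I hι (hSP B I hι.idl hT h2)⟩

/-- all locally `𝒵`-stable C*-algebras -/
theorem px_Z (hTT : S_TT) (hRR : S_RR) (hPM : S_PM) (hCMP : S_CMP) (hSP : S_SP) (hRW : S_RW)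
    (hBPI : S_BPI) (hBSP : S_BSP) (hNC : S_NC) (hPIW : S_PIW) (hSW : S_SW) (hGGH : S_GGH)
    (hBRG : S_BRG) (A : Type) [NonUnitalCStarAlgebra A] (hA : LocalZStable A) :
    (WPI A ↔ PI A) ∧ (PI A ↔ SPI A) := by
  have hι := inc_any A
  have hL := locz_of hι hA
  have h1 : WPI A → PI A ∧ SPI A :=
    px_locz hTT hRR hPM hCMP hSP hRW hBPI hBSP hNC A _ _ _ hι hL
  have h2 : PI A → WPI A := fun h => hPIW A h (hBRG A _ _ _ hι (hGGH _ _ hι.idl hL))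
  exact ⟨⟨fun h => (h1 h).1, h2⟩, ⟨fun h => (h1 (h2 h)).2, fun h => (h1 (hSW A h)).1⟩⟩

/-- from the data of `all_nonunital` -/
theorem px_final
    (hall : ∀ (m : ℕ) (A : Type) [NonUnitalCStarAlgebra A] [TopologicalSpace.SeparableSpace A],
      NuclearDimLE m A → NowhereScattered A → LocalZStable A ∧ GlobalGlimm A)
    (hTT : S_TT) (hRR : S_RR) (hPM : S_PM) (hCMP : S_CMP) (hSP : S_SP) (hRW : S_RW)
    (hBPI : S_BPI) (hBSP : S_BSP) (hNC : S_NC) (hNS : S_NS) (hPINS : S_PINS) (hPIW : S_PIW)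
    (hSW : S_SW) :
    ∀ (m : ℕ) (A : Type) [NonUnitalCStarAlgebra A] [TopologicalSpace.SeparableSpace A],
      NuclearDimLE m A → (WPI A ↔ PI A) ∧ (PI A ↔ SPI A) := by
  intro m A _ _ hm
  have h1 : WPI A → PI A ∧ SPI A := by
    intro h
    have hι := inc_any A
    exact px_locz hTT hRR hPM hCMP hSP hRW hBPI hBSP hNC A _ _ _ hι
      (locz_of hι (hall m A hm (hNS A h)).1) h
  have h2 : PI A → WPI A := fun h => hPIW A h (hall m A hm (hPINS A h)).2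
  exact ⟨⟨fun h => (h1 h).1, h2⟩, ⟨fun h => (h1 (h2 h)).2, fun h => (h1 (hSW A h)).1⟩⟩

end Pool.Agent.N299.PX
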