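import Pool.Agent.N299.ND.All
import Pool.Agent.N299.PX.Asm
import Pool.Agent.N749.PX.TT
import Pool.Agent.N297.PX.RR
import Pool.Agent.N37.PX.PM
import Pool.Agent.N950.PX.ID
import Pool.Agent.N286.PX.CMP
import Pool.Agent.N14.PX.SP
import Pool.Agent.N558.PX.RW
import Pool.Agent.N570.PX.BPI
import Pool.Agent.N31.PX.BSP
import Pool.Agent.N966.PX.RK
import Pool.Agent.N451.PX.NC
import Pool.Agent.N769.PX.NS
import Pool.Agent.N403.PX.PINS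
import Pool.Agent.N97.PX.PIW
import Pool.Agent.N499.PX.SW

/-!
Project PX: everything plugged together.
-/

set_option autoImplicit false

open Filter

noncomputable section

namespace Pool.Agent.N299.PX

open Pool.Agent.N299.ND.Pub
open Pool.Agent.N299.PX.Pub

theorem all_locz (A B : Type) [NonUnitalCStarAlgebra A] [CStarAlgebra B] (ι : A →⋆ₙₐ[ℂ] B)
    (I : Submodule ℂ B) (hι : Pool.Agent.N299.ND.Inc ι I) (hI : Pool.Agent.N299.ND.LocZ I)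
    (h : WPI A) : PI A ∧ SPI A :=
  px_locz Pool.Agent.N749.PX.TT.t_TT Pool.Agent.N297.PX.t_RR Pool.Agent.N37.PX.t_PM
    (Pool.Agent.N286.PX.CMP.t_CMP Pool.Agent.N950.PX.t_ID) Pool.Agent.N14.PX.t_SP
    Pool.Agent.N558.PX.t_RW Pool.Agent.N570.PX.BPI.t_BPI Pool.Agent.N31.PX.t_BSP
    (Pool.Agent.N451.PX.t_NC Pool.Agent.N966.PX.t_RK) A B ι I hι hI h

theorem px_all : ∀ (m : ℕ) (A : Type) [NonUnitalCStarAlgebra A]
    [TopologicalSpace.SeparableSpace A],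
    NuclearDimLE m A → (WPI A ↔ PI A) ∧ (PI A ↔ SPI A) :=
  px_final Pool.Agent.N299.ND.all_nonunital
    Pool.Agent.N749.PX.TT.t_TT Pool.Agent.N297.PX.t_RR Pool.Agent.N37.PX.t_PM
    (Pool.Agent.N286.PX.CMP.t_CMP Pool.Agent.N950.PX.t_ID) Pool.Agent.N14.PX.t_SP
    Pool.Agent.N558.PX.t_RW Pool.Agent.N570.PX.BPI.t_BPI Pool.Agent.N31.PX.t_BSP
    (Pool.Agent.N451.PX.t_NC Pool.Agent.N966.PX.t_RK)
    (Pool.Agent.N769.PX.t_NS Pool.Agent.N966.PX.t_RK) Pool.Agent.N403.PX.t_PINS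
    Pool.Agent.N97.PX.PIW.t_PIW Pool.Agent.N499.PX.t_SW

theorem px_allZ (A : Type) [NonUnitalCStarAlgebra A] (hA : LocalZStable A) :
    (WPI A ↔ PI A) ∧ (PI A ↔ SPI A) :=
  px_Z Pool.Agent.N749.PX.TT.t_TT Pool.Agent.N297.PX.t_RR Pool.Agent.N37.PX.t_PM
    (Pool.Agent.N286.PX.CMP.t_CMP Pool.Agent.N950.PX.t_ID) Pool.Agent.N14.PX.t_SP
    Pool.Agent.N558.PX.t_RW Pool.Agent.N570.PX.BPI.t_BPI Pool.Agent.N31.PX.t_BSP
    (Pool.Agent.N451.PX.t_NC Pool.Agent.N966.PX.t_RK)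
    Pool.Agent.N97.PX.PIW.t_PIW Pool.Agent.N499.PX.t_SW Pool.Agent.N768.ND.GGH.t_GGH
    Pool.Agent.N291.ND.BRG.t_BRG A hA

end Pool.Agent.N299.PX
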