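import Mathlib

/-!
# Weakly purely infinite, purely infinite and strongly purely infinite C*-algebras

The three definitions exactly as in the frozen statement `S06133`.
-/

set_option autoImplicit false

namespace Pool.Agent.N299.PX.Pub

/-- `A` is weakly purely infinite: for some `n ≥ 1` the `n`-fold direct sum of every positive
`a ≠ 0` is properly infinite -/
def WPI (A : Type) [NonUnitalCStarAlgebra A] : Prop :=
  ∃ n : ℕ, 1 ≤ n ∧ ∀ a : A, (∃ y : A, a = star y * y) → a ≠ 0 →
    ∃ X : ℕ → Matrix (Fin 2 × Fin n) (Fin 2 × Fin n) A,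
      Filter.Tendsto
        (fun k => Matrix.conjTranspose (X k) *
          Matrix.diagonal (fun p : Fin 2 × Fin n => if p.1 = 0 then a else 0) * X k)
        Filter.atTop
        (nhds (Matrix.diagonal (fun _ : Fin 2 × Fin n => a)))

/-- `a ≾ b` whenever `a, b ≥ 0` and `a` is in the closed ideal generated by `b` -/
def Compar (A : Type) [NonUnitalCStarAlgebra A] : Prop :=
  ∀ a b : A, (∃ y : A, a = star y * y) → (∃ y : A, b = star y * y) →
    a ∈ closure ((Submodule.span ℂ {c : A | ∃ x z : A, c = x * b * z} : Set A)) →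
    ∃ x : ℕ → A, Filter.Tendsto (fun k => star (x k) * b * x k) Filter.atTop (nhds a)

/-- `A` is purely infinite: no characters, and `a ≾ b` whenever `a, b ≥ 0` and `a` is in the closed
ideal generated by `b` -/
def PI (A : Type) [NonUnitalCStarAlgebra A] : Prop :=
  (¬ ∃ φ : A →⋆ₙₐ[ℂ] ℂ, ∃ a : A, φ a ≠ 0) ∧ Compar A

/-- `A` is strongly purely infinite -/
def SPI (A : Type) [NonUnitalCStarAlgebra A] : Prop :=
  ∀ M : Matrix (Fin 2) (Fin 2) A, (∃ Y : Matrix (Fin 2) (Fin 2) A, M = Matrix.conjTranspose Y * Y) →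
    ∃ D : ℕ → (Fin 2 → A),
      Filter.Tendsto
        (fun k => Matrix.diagonal (D k) * M * Matrix.conjTranspose (Matrix.diagonal (D k)))
        Filter.atTop
        (nhds (Matrix.diagonal (fun i => M i i)))

end Pool.Agent.N299.PX.Pub
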