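import Pool.Agent.N299.ND.Stm2
import Pool.Agent.N299.PX.Pub

/-!
Project PX (MP_c9a752_an): statements of the tasks.
-/

set_option autoImplicit false

open Filter

noncomputable section

namespace Pool.Agent.N299.PX

open Pool.Agent.N299 Pool.Agent.N299.DT Pool.Agent.N299.ND Pool.Agent.N299.ND.Pub
open Pool.Agent.N299.PX.Pub

/-- for every positive `b` in `I`, `K` copies of `b` are Cuntz below `n` copies of `b` -/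
def Rows {B : Type} [CStarAlgebra B] (I : Submodule ℂ B) (n K : ℕ) : Prop :=
  ∀ b ∈ I, Pos b → ∀ ε : ℝ, 0 < ε → ∃ r : Fin n → Fin K → B, (∀ l q, r l q ∈ I) ∧
    ∀ q q', ‖∑ l, star (r l q) * b * r l q' - (if q = q' then b else 0)‖ ≤ ε

/-- almost central cones with almost central cofactors of norm at most `C` -/
def TT {B : Type} [CStarAlgebra B] (I : Submodule ℂ B) : Prop :=
  ∀ (N : ℕ) (F : Finset B) (ε : ℝ), (∀ a ∈ F, a ∈ I) → 0 < ε → ∃ C : ℝ, 1 ≤ C ∧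
  ∀ (F' : Finset B) (ε' : ℝ), (∀ a ∈ F', a ∈ I) → 0 < ε' →
  ∃ (c : Fin (N + 1) → B) (t : Fin (N + 2) → B), (∀ i, c i ∈ I) ∧ (∀ p, t p ∈ I) ∧
    (∀ i, ‖c i‖ ≤ 1) ∧ (∀ p, ‖t p‖ ≤ C) ∧ star (c 0) = c 0 ∧
    (∀ a ∈ F', (∀ i, ‖c i * a - a * c i‖ ≤ ε') ∧ (∀ p, ‖t p * a - a * t p‖ ≤ ε') ∧
      ∀ i j, ‖(c i * star (c j) - (if i = j then c 0 * c 0 else 0)) * a‖ ≤ ε') ∧
    ∀ a ∈ F, ‖(∑ p, star (t p) * (c 0 * c 0) * t p) * a - a‖ ≤ ε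

def S_TT : Prop := ∀ (B : Type) [CStarAlgebra B] (I : Submodule ℂ B), Idl I → LocZ I → TT I

def S_RR : Prop := ∀ (B : Type) [CStarAlgebra B] (I : Submodule ℂ B), Idl I → ∀ n : ℕ, 1 ≤ n →
  Rows I n (2 * n) → ∀ K, Rows I n K

def S_PM : Prop := ∀ (B : Type) [CStarAlgebra B] (I : Submodule ℂ B), Idl I → TT I → ∀ n : ℕ,
  1 ≤ n → (∀ K, Rows I n K) → ∀ K, Rows I 1 K

def S_ID : Prop := ∀ (B : Type) [CStarAlgebra B] (a b : B), Pos a → Pos b →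
  a ∈ closure ((Submodule.span ℂ {c : B | ∃ x z : B, c = x * b * z} : Set B)) →
  ∀ ε : ℝ, 0 < ε → ∃ (K : ℕ) (y : Fin K → B), ‖a - ∑ i, star (y i) * b * y i‖ ≤ ε

def Cmp {B : Type} [CStarAlgebra B] (I : Submodule ℂ B) : Prop :=
  ∀ a ∈ I, ∀ b ∈ I, Pos a → Pos b →
  a ∈ closure ((Submodule.span ℂ {c : B | ∃ x z : B, c = x * b * z} : Set B)) →
  ∀ ε : ℝ, 0 < ε → ∃ x ∈ I, ‖star x * b * x - a‖ ≤ ε

def S_CMP : Prop := ∀ (B : Type) [CStarAlgebra B] (I : Submodule ℂ B), Idl I →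
  (∀ K, Rows I 1 K) → Cmp I

def Sp {B : Type} [CStarAlgebra B] (I : Submodule ℂ B) : Prop :=
  ∀ a ∈ I, ∀ b ∈ I, ∀ x ∈ I, Pos a → Pos b → ∀ ε : ℝ, 0 < ε → ∃ d ∈ I, ∃ e ∈ I,
    ‖d * a * star d - a‖ ≤ ε ∧ ‖e * b * star e - b‖ ≤ ε ∧ ‖d * x * star e‖ ≤ ε

def S_SP : Prop := ∀ (B : Type) [CStarAlgebra B] (I : Submodule ℂ B), Idl I → TT I →
  (∀ K, Rows I 1 K) → Sp I

/-! ### bridges -/

def S_RW : Prop := ∀ (A B : Type) [NonUnitalCStarAlgebra A] [CStarAlgebra B]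
  (ι : A →⋆ₙₐ[ℂ] B) (I : Submodule ℂ B), Inc ι I → WPI A → ∃ n : ℕ, 1 ≤ n ∧ Rows I n (2 * n)

def S_BPI : Prop := ∀ (A B : Type) [NonUnitalCStarAlgebra A] [CStarAlgebra B]
  (ι : A →⋆ₙₐ[ℂ] B) (I : Submodule ℂ B), Inc ι I → Cmp I → Compar A

def S_BSP : Prop := ∀ (A B : Type) [NonUnitalCStarAlgebra A] [CStarAlgebra B]
  (ι : A →⋆ₙₐ[ℂ] B) (I : Submodule ℂ B), Inc ι I → Sp I → SPI A

/-! ### characters and elementary subquotients -/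

def S_RK : Prop := ∀ n : ℕ, 1 ≤ n → ∀ ζ : ℕ → Matrix (Fin n) (Fin 2 × Fin n) ℂ,
  ¬ Tendsto (fun k => Matrix.conjTranspose (ζ k) * ζ k) atTop (nhds 1)

def S_NC : Prop := ∀ (A : Type) [NonUnitalCStarAlgebra A], WPI A →
  ¬ ∃ φ : A →⋆ₙₐ[ℂ] ℂ, ∃ a : A, φ a ≠ 0

def S_NS : Prop := ∀ (A : Type) [NonUnitalCStarAlgebra A], WPI A → NowhereScattered A

def S_PINS : Prop := ∀ (A : Type) [NonUnitalCStarAlgebra A], PI A → NowhereScattered A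

def S_PIW : Prop := ∀ (A : Type) [NonUnitalCStarAlgebra A], PI A → GlobalGlimm A → WPI A

def S_SW : Prop := ∀ (A : Type) [NonUnitalCStarAlgebra A], SPI A → WPI A

end Pool.Agent.N299.PX
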